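import Mathlib
import Pool.Agent.K6.H75.OM.Def3
import Pool.Agent.K6.H75.OM.Bridge

/-!
# Q2: the metrics on the sphere with property (O) are not dense

`SMetric` is the space of all smooth Riemannian metrics on `S²` with the `C^∞` topology. The set
of the metrics with property (O) is closed, and it is not dense: there is a nonempty open set of
metrics without property (O).

Proof. Let metrics `g_n` with property (O) converge to `g`, and let `x_n`, `y_n` be the points. By
the Euler–Lagrange equation, tested with rotations of the sphere, the velocities of the segments of
the `g_n` are uniformly bounded and uniformly Lipschitz continuous. So two segments which leave `y_n`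
in opposite directions and meet again have lengths bounded from below, and segments from `y_n` to
`x_n` converge in `C¹`, along a subsequence, to segments of `g`. The set is not everything by the
starting result `NoOppositeSegments`.
-/

namespace Pool.Agent.Results.MP_da270e_gt.ClosedNotDense

open Pool.Agent.K6.H75.OM3

/-- The set of the smooth Riemannian metrics on `S²` with property (O) is closed and not dense in the
`C^∞` topology. -/
theorem result : IsClosed {g : SMetric | PropertyO g} ∧ ¬ Dense {g : SMetric | PropertyO g} :=
  ⟨closed_O, not_dense_O⟩

end Pool.Agent.Results.MP_da270e_gt.ClosedNotDense
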